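import Pool.Agent.Helper14K9.HC.Stm

/-! # Project HC: [ASG] the sort of the assignments -/

set_option autoImplicit false

namespace Pool.Agent.Helper14K9.HC

open Function
open Pool.Agent.Y924.EL Pool.Agent.Y924.UF
open Pool.Agent.Helper14K9.SO
open Pool.Agent.Helper14K9.PJ

variable {p : ℕ} [hp : Fact p.Prime] {P : Set (LaurentSeries (ZMod p))}

namespace AsgL

open Pool.Agent.Helper14K9.PJ.TpwL Pool.Agent.Helper14K9.PJ.SeqL

/-- decoding -/
noncomputable def dec (X : LaurentSeries (ZMod p)) (n : ℕ) : LaurentSeries (ZMod p) :=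
  em (PowerSeries.mk fun i => lam (X * (((tq p ^ i) ^ p * tq p) ^ (p ^ n))⁻¹))

theorem dec_iff (X y : LaurentSeries (ZMod p)) (n : ℕ) :
    dec X n = y ↔ y ∈ OO p ∧ ∀ i : ℕ, lam (y * (tq p ^ i)⁻¹) =
      lam (X * (((tq p ^ i) ^ p * tq p) ^ (p ^ n))⁻¹) := by
  constructor
  · rintro rfl
    refine ⟨⟨_, rfl⟩, fun i => ?_⟩
    rw [lam_inv]
    unfold dec
    rw [em_coeff, PowerSeries.coeff_mk]
  · rintro ⟨⟨b, rfl⟩, h2⟩
    refine em_ext fun m => ?_
    have h3 := h2 m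
    rw [lam_inv] at h3
    rw [em_coeff, PowerSeries.coeff_mk]
    exact h3.symm

theorem dec_cdS (a : ℕ → PowerSeries (ZMod p)) (n : ℕ) : dec (em (cdS a)) n = em (a n) :=
  (dec_iff _ _ _).2 ((seq_iff a n _).1 rfl)

theorem rc_dec {ρ : LaurentSeries (ZMod p) → ℕ} (h : Num P ρ)
    (hT : Rc P (fun v => tq p ^ ρ (v 0) = v 1)) (c : ℕ → ℕ)
    (hE : ∀ f : (ℕ → LaurentSeries (ZMod p)) → LaurentSeries (ZMod p), Tk P f →
      Tk P (fun v => f v ^ (p ^ c (ρ (v 1))))) :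
    Rc P (fun v => dec (v 0) (c (ρ (v 1))) = v 2) := by
  have hv : ∀ i, Ts P ρ (fun v => ρ (v i)) := fun i => Ts.var h.eqS i
  have ht : ∀ i, Tk P (fun v => tq p ^ ρ (v i)) := fun i =>
    Ts.op1 (F := fun n : ℕ => tq p ^ n) h.surj surjective_id hT eqS_id (hv i)
  have h1 : Rc P (fun v => v 2 ∈ OO p ∧ ∀ i : ℕ, lam (v 2 * (tq p ^ i)⁻¹) =
      lam (v 0 * (((tq p ^ i) ^ p * tq p) ^ (p ^ c (ρ (v 1))))⁻¹)) := by
    refine (rc_OO (Tk.var 2)).and ?_
    refine Rc.allS 3 h.surj (R := fun v i => lam (v 2 * (tq p ^ i)⁻¹) =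
      lam (v 0 * (((tq p ^ i) ^ p * tq p) ^ (p ^ c (ρ (v 1))))⁻¹)) ?_ fun v b c => by simp
    exact rc_lam ((Tk.var 2).mul (ht 3).inv)
      ((Tk.var 0).mul (hE _ (((ht 3).pow p).mul (Tk.const (tq p)))).inv)
  exact h1.congr fun v => (dec_iff (v 0) (v 2) _).symm

end AsgL

open AsgL Pool.Agent.Helper14K9.PJ.TpwL Pool.Agent.Helper14K9.PJ.SeqL in
theorem asg : S_ASG := by
  intro p _ P ρ hW
  have h := hW.num
  have hF := hW.frb
  have hv : ∀ i, Ts P ρ (fun v => ρ (v i)) := fun i => Ts.var h.eqS i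
  have hE0 : ∀ f : (ℕ → LaurentSeries (ZMod p)) → LaurentSeries (ZMod p), Tk P f →
      Tk P (fun v => f v ^ (p ^ (2 * ρ (v 1)))) := by
    intro f hf
    have h1 := powF h hF (powF h hF hf (hv 1)) (hv 1)
    have e : (fun v : ℕ → LaurentSeries (ZMod p) => f v ^ (p ^ (2 * ρ (v 1)))) =
        fun v => (f v ^ (p ^ ρ (v 1))) ^ (p ^ ρ (v 1)) := by
      funext v
      rw [← pow_mul, ← pow_add, two_mul]
    rw [e]
    exact h1
  have hE1 : ∀ f : (ℕ → LaurentSeries (ZMod p)) → LaurentSeries (ZMod p), Tk P f →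
      Tk P (fun v => f v ^ (p ^ (2 * ρ (v 1) + 1))) := by
    intro f hf
    have h1 := (hE0 f hf).pow p
    have e : (fun v : ℕ → LaurentSeries (ZMod p) => f v ^ (p ^ (2 * ρ (v 1) + 1))) =
        fun v => (f v ^ (p ^ (2 * ρ (v 1)))) ^ p := by
      funext v
      rw [← pow_mul, ← pow_succ]
    rw [e]
    exact h1
  refine ⟨fun X n => dec X (2 * n) / dec X (2 * n + 1), ?_, ?_⟩
  · intro x
    have hx : ∀ n, ∃ a b : PowerSeries (ZMod p), em a / em b = x n := by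
      intro n
      obtain ⟨a, b, -, hab⟩ := IsFractionRing.div_surjective (A := PowerSeries (ZMod p)) (x n)
      exact ⟨a, b, hab⟩
    choose a b hab using hx
    refine ⟨em (cdS fun n => if n % 2 = 0 then a (n / 2) else b (n / 2)), ?_⟩
    funext n
    simp only
    rw [dec_cdS, dec_cdS, if_pos (by omega), if_neg (by omega),
      show 2 * n / 2 = n by omega, show (2 * n + 1) / 2 = n by omega, hab]
  · have hA : Tk P (fun v => dec (v 0) (2 * ρ (v 1))) :=
      Ts.op2 surjective_id h.surj surjective_id (F := fun X n => dec X (2 * n))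
        (rc_dec h hW.tpw (fun n => 2 * n) hE0) eqS_id (Tk.var 0) (hv 1)
    have hB : Tk P (fun v => dec (v 0) (2 * ρ (v 1) + 1)) :=
      Ts.op2 surjective_id h.surj surjective_id (F := fun X n => dec X (2 * n + 1))
        (rc_dec h hW.tpw (fun n => 2 * n + 1) hE1) eqS_id (Tk.var 0) (hv 1)
    exact Rc.eqK (hA.div hB) (Tk.var 2)

end Pool.Agent.Helper14K9.HC
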