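import Pool.Agent.Helper14K9.HC.Stm

/-!
# Project HC, second part (MP_db9079_lc): if all definable sets are Borel then (K, P) is LFTame
-/

set_option autoImplicit false

namespace Pool.Agent.Helper14K9.HC

open Function
open Pool.Agent.Helper14K9.PJ

/-- Borel subsets of `K = F_p((t))`: the `σ`-algebra generated by the balls -/
def BorelK (p : ℕ) (B : Set (LaurentSeries (ZMod p))) : Prop :=
  @MeasurableSet (LaurentSeries (ZMod p)) (MeasurableSpace.generateFrom
    {U : Set (LaurentSeries (ZMod p)) | ∃ (a : LaurentSeries (ZMod p)) (N : ℤ),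
      U = {x | Vle N (x - a)}}) B

/-- the set given by the tree `T`: `x` is in it iff there is a `y : ℕ → ℕ` such that for all `n` the
pair of `y 0, ..., y (n - 1)` and the coefficients of `t ^ i`, `- n ≤ i < n`, of `x` is in `T` -/
def Tree {p : ℕ} (T : Set (List ℕ × List (ZMod p))) : Set (LaurentSeries (ZMod p)) :=
  {x | ∃ y : ℕ → ℕ, ∀ n : ℕ, ((List.range n).map y,
    (List.range (2 * n)).map fun i => x.coeff ((i : ℤ) - n)) ∈ T}

/-- [BOR] Borel sets are given by trees. Proof: `ι x = x.coeff`, a map from `K` to the Polish space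
`ℤ → ZMod p`; a Borel `B` is `ι ⁻¹ B'` with `B'` Borel (the balls are), and the range of `ι` is Borel (a
countable union of closed sets). So `ι '' B = B' ∩ range ι` is analytic (Mathlib:
`MeasurableSet.analyticSet`), i.e. empty or the range of a continuous `f : (ℕ → ℕ) → (ℤ → ZMod p)`;
`T` is the set of all `(y 0, ..., y (n - 1))`, `(f y i, - n ≤ i < n)`, for all `y`, `n`. If `x` is in
`Tree T` with `y` then `f y = ι x` by continuity: for each `i` the value `f y' i` is `f y i` for all `y'` which
agree with `y` below some `m`. -/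
def S_BOR : Prop := ∀ (p : ℕ) [Fact p.Prime] (B : Set (LaurentSeries (ZMod p))), BorelK p B →
  ∃ T : Set (List ℕ × List (ZMod p)), B = Tree T

end Pool.Agent.Helper14K9.HC
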