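import Pool.Agent.Helper14K9.HC.Sat
import Pool.Agent.Helper14K9.HC.Stm2

/-! # Project HC: the universal analytic set is definable; a definable set which is not Borel -/

set_option autoImplicit false

namespace Pool.Agent.Helper14K9.HC

open Function
open Pool.Agent.Y924.EL Pool.Agent.Y924.UF
open Pool.Agent.Helper14K9.SO
open Pool.Agent.Helper14K9.PJ

theorem list_iff {β : Type} (d : β) (l : List β) (n : ℕ) (y : ℕ → β) :
    l = (List.range n).map y ↔ l.length = n ∧ ∀ i, i < n → l.getD i d = y i := by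
  constructor
  · rintro rfl
    refine ⟨by simp, fun i hi => ?_⟩
    rw [List.getD_eq_getElem _ _ (by simpa using hi)]
    simp
  · rintro ⟨h1, h2⟩
    apply List.ext_getElem
    · simp [h1]
    · intro i h3 h4
      have h5 := h2 i (by omega)
      rw [List.getD_eq_getElem _ _ h3] at h5
      rw [h5]
      simp

section

variable {p : ℕ} [Fact p.Prime] {P : Set (LaurentSeries (ZMod p))}
  {ρ : LaurentSeries (ZMod p) → ℕ} {A : LaurentSeries (ZMod p) → (ℕ → LaurentSeries (ZMod p))}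

/-- arbitrary binary functions from the numbers to `K` -/
theorem arbK2 (h : Wd P ρ) (hs : Surjective A)
    (hA : Rc P (fun v => A (v 0) (ρ (v 1)) = v 2)) (F : ℕ → ℕ → LaurentSeries (ZMod p))
    {f g : (ℕ → LaurentSeries (ZMod p)) → ℕ} (hf : Ts P ρ f) (hg : Ts P ρ g) :
    Tk P (fun v => F (f v) (g v)) := by
  choose X hX using fun q => hs (F q)
  have h1 : Tk P (fun v => X (f v)) :=
    Ts.op1 (ρ := ρ) (σ := id) (F := X) h.num.surj surjective_id (h.seq X) eqS_id hf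
  have h2 := evalK h hA h1 hg
  simpa only [hX] using h2

/-- arbitrary binary functions of numbers -/
theorem arbF2 (h : Wd P ρ) (hs : Surjective A)
    (hA : Rc P (fun v => A (v 0) (ρ (v 1)) = v 2)) (G : ℕ → ℕ → ℕ)
    {f g : (ℕ → LaurentSeries (ZMod p)) → ℕ} (hf : Ts P ρ f) (hg : Ts P ρ g) :
    Ts P ρ (fun v => G (f v) (g v)) := by
  choose F hF using fun m n => h.num.surj (G m n)
  have h1 : Ts P ρ (fun v => ρ (F (f v) (g v))) :=
    Ts.op1 (ρ := id) (F := ρ) surjective_id h.num.surj (h.num.eqS 0 1) h.num.eqS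
      (arbK2 h hs hA F hf hg)
  simpa only [hF] using h1

/-- the universal relation -/
def Uni (g : ℕ → List ℕ × List (ZMod p)) (T : Set ℕ) (x : LaurentSeries (ZMod p)) : Prop :=
  ∃ y : ℕ → ℕ, ∀ n : ℕ, ∃ q : ℕ, (g q).1.length = n ∧ (g q).2.length = n + n ∧
    (∀ i : ℕ, i < n → (g q).1.getD i 0 = y i) ∧
    (∀ i : ℕ, i < n + n → (g q).2.getD i 0 = lam (x * (tq p ^ i)⁻¹ * tq p ^ n)) ∧ q ∈ T

theorem lam_coeff (x : LaurentSeries (ZMod p)) (i n : ℕ) :
    lam (x * (tq p ^ i)⁻¹ * tq p ^ n) = x.coeff ((i : ℤ) - n) := by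
  rw [TpwL.tq_pow_inv, TpwL.tq_pow, mul_assoc, HahnSeries.single_mul_single, one_mul]
  unfold PJ.lam
  have h := HahnSeries.coeff_mul_single_add (r := (1 : ZMod p)) (x := x) (a := (i : ℤ) - n)
    (b := -(i : ℤ) + n)
  rw [show (i : ℤ) - n + (-(i : ℤ) + n) = 0 by ring, mul_one] at h
  exact h

theorem uni_iff (g : ℕ → List ℕ × List (ZMod p)) (hg : Surjective g)
    (T : Set (List ℕ × List (ZMod p))) (x : LaurentSeries (ZMod p)) :
    Uni g {q | g q ∈ T} x ↔ x ∈ Tree T := by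
  have e : ∀ n : ℕ, (List.map (fun i : ℤ => x.coeff (i - n))
      (do let a ← List.range (2 * n); pure (a : ℤ))) =
      (List.range (2 * n)).map (fun i : ℕ => x.coeff ((i : ℤ) - n)) := by
    intro n
    have e1 : (do let a ← List.range (2 * n); pure (a : ℤ) : List ℤ) =
        (List.range (2 * n)).map (fun a : ℕ => (a : ℤ)) := List.map_eq_flatMap.symm
    rw [e1, List.map_map]
    rfl
  unfold Uni Tree
  rw [Set.mem_ofPred_eq]
  simp only [e]
  refine exists_congr fun y => forall_congr' fun n => ?_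
  have key : ∀ q, ((g q).1.length = n ∧ (g q).2.length = n + n ∧
      (∀ i : ℕ, i < n → (g q).1.getD i 0 = y i) ∧
      (∀ i : ℕ, i < n + n → (g q).2.getD i 0 = lam (x * (tq p ^ i)⁻¹ * tq p ^ n))) ↔
      g q = ((List.range n).map y,
        (List.range (2 * n)).map (fun i : ℕ => x.coeff ((i : ℤ) - n))) := by
    intro q
    rw [Prod.ext_iff, list_iff 0, list_iff 0, two_mul]
    simp only [lam_coeff]
    tauto
  constructor
  · rintro ⟨q, h1, h2, h3, h4, h5⟩
    have h6 := (key q).1 ⟨h1, h2, h3, h4⟩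
    rw [← h6]
    exact h5
  · intro h1
    obtain ⟨q, hq⟩ := hg ((List.range n).map y, (List.range (2 * n)).map
      (fun i : ℕ => x.coeff ((i : ℤ) - n)))
    obtain ⟨h2, h3, h4, h5⟩ := (key q).2 hq
    refine ⟨q, h2, h3, h4, h5, ?_⟩
    show g q ∈ T
    rw [hq]
    exact h1

theorem rc_Uni (hARB : S_ARB) (h : Wd P ρ) (hs : Surjective A)
    (hA : Rc P (fun v => A (v 0) (ρ (v 1)) = v 2)) (g : ℕ → List ℕ × List (ZMod p)) :
    Rc P (fun v => Uni g (TT A (v 0)) (v 0)) := by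
  have hn : ∀ k, Ts P ρ (fun v => ρ (v k)) := fun k => Ts.var h.num.eqS k
  have hat : ∀ k, Ts P A (fun v => A (v k)) := fun k => Ts.var (eqS_A h hA) k
  have htp : ∀ k, Tk P (fun v => tq p ^ ρ (v k)) := fun k =>
    Ts.op1 (F := fun n => tq p ^ n) h.num.surj surjective_id h.tpw eqS_id (hn k)
  have hya : ∀ i j, Ts P ρ (fun v => ρ (A (v i) (ρ (v j)))) := fun i j =>
    Ts.op1 (ρ := id) (F := ρ) surjective_id h.num.surj (h.num.eqS 0 1) h.num.eqS
      (evalT h hs hA (hat i) (hn j))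
  have h1 : Rc P (fun v => ∃ a : ℕ → LaurentSeries (ZMod p), ∀ n : ℕ, ∃ q : ℕ,
      (g q).1.length = n ∧ (g q).2.length = n + n ∧
      (∀ i : ℕ, i < n → (g q).1.getD i 0 = ρ (a i)) ∧
      (∀ i : ℕ, i < n + n → lam (HahnSeries.single (0 : ℤ) ((g q).2.getD i 0)) =
        lam (v 0 * (tq p ^ i)⁻¹ * tq p ^ n)) ∧ q ∈ TT A (v 0)) := by
    refine Rc.exS 1 hs (R := fun v a => ∀ n : ℕ, ∃ q : ℕ,
      (g q).1.length = n ∧ (g q).2.length = n + n ∧
      (∀ i : ℕ, i < n → (g q).1.getD i 0 = ρ (a i)) ∧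
      (∀ i : ℕ, i < n + n → lam (HahnSeries.single (0 : ℤ) ((g q).2.getD i 0)) =
        lam (v 0 * (tq p ^ i)⁻¹ * tq p ^ n)) ∧ q ∈ TT A (v 0)) ?_ fun v a c => by simp
    refine Rc.allS 2 h.num.surj (R := fun v n => ∃ q : ℕ,
      (g q).1.length = n ∧ (g q).2.length = n + n ∧
      (∀ i : ℕ, i < n → (g q).1.getD i 0 = ρ (A (v 1) i)) ∧
      (∀ i : ℕ, i < n + n → lam (HahnSeries.single (0 : ℤ) ((g q).2.getD i 0)) =
        lam (v 0 * (tq p ^ i)⁻¹ * tq p ^ n)) ∧ q ∈ TT A (v 0)) ?_ fun v a c => by simp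
    refine Rc.exS 3 h.num.surj (R := fun v q =>
      (g q).1.length = ρ (v 2) ∧ (g q).2.length = ρ (v 2) + ρ (v 2) ∧
      (∀ i : ℕ, i < ρ (v 2) → (g q).1.getD i 0 = ρ (A (v 1) i)) ∧
      (∀ i : ℕ, i < ρ (v 2) + ρ (v 2) → lam (HahnSeries.single (0 : ℤ) ((g q).2.getD i 0)) =
        lam (v 0 * (tq p ^ i)⁻¹ * tq p ^ ρ (v 2))) ∧ q ∈ TT A (v 0)) ?_ fun v a c => by simp
    refine (TpwL.eqN h.num (arbF hARB h (fun q => (g q).1.length) (hn 3)) (hn 2)).and
      ((TpwL.eqN h.num (arbF hARB h (fun q => (g q).2.length) (hn 3))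
        (TpwL.addT h.num (hn 2) (hn 2))).and (Rc.and ?_ (Rc.and ?_ (tt_mem h hA 3 0))))
    · refine Rc.allS 4 h.num.surj (R := fun v i => i < ρ (v 2) →
        (g (ρ (v 3))).1.getD i 0 = ρ (A (v 1) i)) ?_ fun v a c => by simp
      exact (TpwL.ltN h.num (hn 4) (hn 2)).imp (TpwL.eqN h.num
        (arbF2 h hs hA (fun q i => (g q).1.getD i 0) (hn 3) (hn 4)) (hya 1 4))
    · refine Rc.allS 4 h.num.surj (R := fun v i => i < ρ (v 2) + ρ (v 2) →
        lam (HahnSeries.single (0 : ℤ) ((g (ρ (v 3))).2.getD i 0)) =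
        lam (v 0 * (tq p ^ i)⁻¹ * tq p ^ ρ (v 2))) ?_ fun v a c => by simp
      exact (TpwL.ltN h.num (hn 4) (TpwL.addT h.num (hn 2) (hn 2))).imp
        (rc_lam (arbK2 h hs hA
          (fun q i => HahnSeries.single (0 : ℤ) ((g q).2.getD i 0)) (hn 3) (hn 4))
          (((Tk.var 0).mul (htp 4).inv).mul (htp 2)))
  refine h1.congr fun v => ?_
  have hl : ∀ c : ZMod p, lam (HahnSeries.single (0 : ℤ) c) = c := by
    intro c
    unfold PJ.lam
    rw [HahnSeries.coeff_single_same]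
  simp only [hl]
  constructor
  · rintro ⟨a, ha⟩
    exact ⟨fun i => ρ (a i), ha⟩
  · rintro ⟨y, hy⟩
    choose a ha using fun i => h.num.surj (y i)
    refine ⟨a, ?_⟩
    simp only [ha]
    exact hy

/-- a definable set which is not Borel -/
theorem diagB (hARB : S_ARB) (hASG : S_ASG) (hBOR : S_BOR) (h : Wd P ρ) :
    ∃ D : Set (LaurentSeries (ZMod p)), Rc P (fun v => v 0 ∈ D) ∧ ¬ BorelK p D := by
  obtain ⟨A, hs, hA⟩ := hASG p P ρ h
  obtain ⟨g, hg⟩ := exists_surjective_nat (List ℕ × List (ZMod p))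
  refine ⟨{x | ¬ Uni g (TT A x) x}, (rc_Uni hARB h hs hA g).not, fun hB => ?_⟩
  obtain ⟨T, hT⟩ := hBOR p _ hB
  obtain ⟨x, hx⟩ := tt_surj hs {q | g q ∈ T}
  have h1 : x ∈ {x | ¬ Uni g (TT A x) x} ↔ x ∈ Tree T := by rw [← hT]
  rw [Set.mem_ofPred_eq, hx, uni_iff g hg T x] at h1
  tauto

end

end Pool.Agent.Helper14K9.HC
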