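import Pool.Agent.Helper14K9.HC.Stm

/-! # Project HC: the satisfaction of `Σ_n`-formulas is definable; the diagonal argument -/

set_option autoImplicit false

namespace Pool.Agent.Helper14K9.HC

open Function
open Pool.Agent.Y924.EL Pool.Agent.Y924.UF
open Pool.Agent.Helper14K9.SO
open Pool.Agent.Helper14K9.PJ

/-! ## Formulas -/

/-- the formula without its leading quantifiers -/
def strip : Fm → Fm
  | .ex _ φ => strip φ
  | φ => φ

/-- the variables of the leading quantifiers -/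
def bvs : Fm → Set ℕ
  | .ex i φ => insert i (bvs φ)
  | _ => ∅

theorem sat_strip {K : Type} [CommRing K] (P : Set K) : ∀ (φ : Fm) (a : ℕ → K),
    Sat P φ a ↔ ∃ a' : ℕ → K, (∀ i, i ∉ bvs φ → a' i = a i) ∧ Sat P (strip φ) a' := by
  have triv : ∀ (φ : Fm), strip φ = φ → bvs φ = ∅ → ∀ a : ℕ → K,
      (Sat P φ a ↔ ∃ a' : ℕ → K, (∀ i, i ∉ bvs φ → a' i = a i) ∧ Sat P (strip φ) a') := by
    intro φ h1 h2 a
    rw [h1, h2]
    constructor
    · intro h
      exact ⟨a, fun _ _ => rfl, h⟩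
    · rintro ⟨a', h3, h4⟩
      have : a' = a := funext fun i => h3 i (Set.notMem_empty i)
      rwa [this] at h4
  intro φ
  induction φ with
  | eq i j => exact triv _ rfl rfl
  | one i => exact triv _ rfl rfl
  | add i j k => exact triv _ rfl rfl
  | mul i j k => exact triv _ rfl rfl
  | val i => exact triv _ rfl rfl
  | neg φ _ => exact triv _ rfl rfl
  | and φ ψ _ _ => exact triv _ rfl rfl
  | ex i φ ih =>
    intro a
    show (∃ x, Sat P φ (update a i x)) ↔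
      ∃ a' : ℕ → K, (∀ j, j ∉ insert i (bvs φ) → a' j = a j) ∧ Sat P (strip φ) a'
    constructor
    · rintro ⟨x, hx⟩
      obtain ⟨a', h1, h2⟩ := (ih _).1 hx
      refine ⟨a', fun j hj => ?_, h2⟩
      rw [Set.mem_insert_iff, not_or] at hj
      rw [h1 j hj.2, update_of_ne hj.1]
    · rintro ⟨a', h1, h2⟩
      refine ⟨a' i, (ih _).2 ⟨a', fun j hj => ?_, h2⟩⟩
      rcases eq_or_ne j i with rfl | hji
      · rw [update_self]
      · rw [update_of_ne hji]
        exact h1 j fun h => (Set.mem_insert_iff.1 h).elim hji hj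

theorem sg_strip : ∀ (m : ℕ) (φ : Fm), Sg m φ → ∀ n, m = n + 1 →
    ∃ ψ, strip φ = .neg ψ ∧ Sg n ψ := by
  intro m φ h
  induction h with
  | qf φ _ =>
    intro n hn
    exact absurd hn (Nat.succ_ne_zero n).symm
  | neg n φ h _ =>
    intro n' hn
    obtain rfl : n = n' := by omega
    exact ⟨φ, rfl, h⟩
  | ex n i φ _ ih =>
    intro n' hn
    obtain ⟨ψ, h1, h2⟩ := ih n' hn
    exact ⟨ψ, h1, h2⟩

/-- evaluation of quantifier-free formulas -/
def ev (T : Set ℕ) : Fm → Prop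
  | .neg φ => ¬ ev T φ
  | .and φ ψ => ev T φ ∧ ev T ψ
  | φ => φ.code ∈ T

theorem ev_congr {T T' : Set ℕ} : ∀ φ : Fm, (∀ j ≤ φ.code, (j ∈ T ↔ j ∈ T')) →
    (ev T φ ↔ ev T' φ) := by
  intro φ
  induction φ with
  | eq i j => intro h; exact h _ le_rfl
  | one i => intro h; exact h _ le_rfl
  | add i j k => intro h; exact h _ le_rfl
  | mul i j k => intro h; exact h _ le_rfl
  | val i => intro h; exact h _ le_rfl
  | neg φ ih =>
    intro h
    exact not_congr (ih fun j hj => h j (hj.trans (Nat.right_le_pair _ _)))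
  | and φ ψ ih1 ih2 =>
    intro h
    exact and_congr
      (ih1 fun j hj => h j (hj.trans ((Nat.left_le_pair _ _).trans (Nat.right_le_pair _ _))))
      (ih2 fun j hj => h j (hj.trans ((Nat.right_le_pair _ _).trans (Nat.right_le_pair _ _))))
  | ex i φ _ => intro h; exact h _ le_rfl

/-- truth of atomic formulas in terms of the codes -/
def At {K : Type} [CommRing K] (P : Set K) (j : ℕ) (a : ℕ → K) : Prop :=
  (j.unpair.1 = 0 ∧ a j.unpair.2.unpair.1 = a j.unpair.2.unpair.2) ∨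
  (j.unpair.1 = 1 ∧ a j.unpair.2 = 1) ∨
  (j.unpair.1 = 2 ∧ a j.unpair.2.unpair.1 + a j.unpair.2.unpair.2.unpair.1 =
    a j.unpair.2.unpair.2.unpair.2) ∨
  (j.unpair.1 = 3 ∧ a j.unpair.2.unpair.1 * a j.unpair.2.unpair.2.unpair.1 =
    a j.unpair.2.unpair.2.unpair.2) ∨
  (j.unpair.1 = 4 ∧ a j.unpair.2 ∈ P)

theorem ev_qf {K : Type} [CommRing K] (P : Set K) (a : ℕ → K) (T : Set ℕ)
    (hT : ∀ j, j ∈ T ↔ At P j a) (φ : Fm) (h : QF φ) : ev T φ ↔ Sat P φ a := by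
  induction h with
  | eq i j =>
    show Nat.pair 0 (Nat.pair i j) ∈ T ↔ a i = a j
    rw [hT]
    simp [At]
  | one i =>
    show Nat.pair 1 i ∈ T ↔ a i = 1
    rw [hT]
    simp [At]
  | add i j k =>
    show Nat.pair 2 (Nat.pair i (Nat.pair j k)) ∈ T ↔ a i + a j = a k
    rw [hT]
    simp [At]
  | mul i j k =>
    show Nat.pair 3 (Nat.pair i (Nat.pair j k)) ∈ T ↔ a i * a j = a k
    rw [hT]
    simp [At]
  | val i =>
    show Nat.pair 4 i ∈ T ↔ a i ∈ P
    rw [hT]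
    simp [At]
  | neg φ _ ih => exact not_congr ih
  | and φ ψ _ _ ih1 ih2 => exact and_congr ih1 ih2

/-- satisfaction of `Σ_n`-formulas in terms of the codes -/
def St {K : Type} [CommRing K] (P : Set K) (n m : ℕ) (a : ℕ → K) : Prop :=
  ∃ φ, Sg n φ ∧ φ.code = m ∧ Sat P φ a

/-! ## Definability -/

section

variable {p : ℕ} [Fact p.Prime] {P : Set (LaurentSeries (ZMod p))}
  {ρ : LaurentSeries (ZMod p) → ℕ} {A : LaurentSeries (ZMod p) → (ℕ → LaurentSeries (ZMod p))}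

/-- arbitrary sets of numbers -/
theorem arb1 (hARB : S_ARB) (h : Wd P ρ) (Q : ℕ → Prop) {f : (ℕ → LaurentSeries (ZMod p)) → ℕ}
    (hf : Ts P ρ f) : Rc P (fun v => Q (f v)) :=
  Rc.app1 h.num.surj (R := Q) (hARB p P ρ h fun m _ => Q m) hf

theorem arb2 (hARB : S_ARB) (h : Wd P ρ) (R : ℕ → ℕ → Prop)
    {f g : (ℕ → LaurentSeries (ZMod p)) → ℕ} (hf : Ts P ρ f) (hg : Ts P ρ g) :
    Rc P (fun v => R (f v) (g v)) :=
  Rc.app2 h.num.surj h.num.surj (R := R) (hARB p P ρ h R) hf hg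

/-- arbitrary functions of numbers -/
theorem arbF (hARB : S_ARB) (h : Wd P ρ) (F : ℕ → ℕ)
    {f : (ℕ → LaurentSeries (ZMod p)) → ℕ} (hf : Ts P ρ f) : Ts P ρ (fun v => F (f v)) :=
  Ts.op1 (F := F) h.num.surj h.num.surj (hARB p P ρ h fun m i => F m = i) h.num.eqS hf

theorem evalK (h : Wd P ρ) (hA : Rc P (fun v => A (v 0) (ρ (v 1)) = v 2))
    {f : (ℕ → LaurentSeries (ZMod p)) → LaurentSeries (ZMod p)}
    {g : (ℕ → LaurentSeries (ZMod p)) → ℕ} (hf : Tk P f) (hg : Ts P ρ g) :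
    Tk P (fun v => A (f v) (g v)) :=
  Ts.op2 (ρ := id) (σ := ρ) (τ := id) (F := fun x n => A x n) surjective_id h.num.surj
    surjective_id hA eqS_id hf hg

theorem eqS_A (h : Wd P ρ) (hA : Rc P (fun v => A (v 0) (ρ (v 1)) = v 2)) : EqS P A := by
  intro i j
  have h1 : Rc P (fun v => ∀ k : ℕ, A (v i) k = A (v j) k) := by
    refine Rc.allS (i + j + 1) h.num.surj (R := fun v k => A (v i) k = A (v j) k)
      (Rc.eqK (evalK h hA (Tk.var i) (Ts.var h.num.eqS _))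
        (evalK h hA (Tk.var j) (Ts.var h.num.eqS _))) fun v a c => ?_
    rw [update_of_ne (show i ≠ i + j + 1 by omega), update_of_ne (show j ≠ i + j + 1 by omega)]
  exact h1.congr fun v => funext_iff.symm

/-- evaluation of assignments -/
theorem evalT (h : Wd P ρ) (hs : Surjective A) (hA : Rc P (fun v => A (v 0) (ρ (v 1)) = v 2))
    {f : (ℕ → LaurentSeries (ZMod p)) → (ℕ → LaurentSeries (ZMod p))}
    {g : (ℕ → LaurentSeries (ZMod p)) → ℕ} (hf : Ts P A f) (hg : Ts P ρ g) :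
    Tk P (fun v => (f v) (g v)) :=
  Ts.op2 (ρ := A) (σ := ρ) (τ := id) (F := fun a n => a n) hs h.num.surj
    surjective_id hA eqS_id hf hg

/-- the sort of the sets of numbers -/
def TT (A : LaurentSeries (ZMod p) → (ℕ → LaurentSeries (ZMod p))) (x : LaurentSeries (ZMod p)) :
    Set ℕ := {i | A x i ≠ 0}

theorem tt_surj (hs : Surjective A) : Surjective (TT A) := by
  classical
  intro T
  obtain ⟨x, hx⟩ := hs fun i => if i ∈ T then 1 else 0
  refine ⟨x, ?_⟩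
  ext i
  unfold TT
  rw [Set.mem_ofPred_eq, hx]
  simp

theorem tt_mem (h : Wd P ρ) (hA : Rc P (fun v => A (v 0) (ρ (v 1)) = v 2)) (i j : ℕ) :
    Rc P (fun v => ρ (v i) ∈ TT A (v j)) :=
  (Rc.eqK (evalK h hA (Tk.var j) (Ts.var h.num.eqS i)) (Tk.const 0)).not

theorem rc_At (hARB : S_ARB) (h : Wd P ρ) (hs : Surjective A)
    (hA : Rc P (fun v => A (v 0) (ρ (v 1)) = v 2)) (i j : ℕ) :
    Rc P (fun v => At P (ρ (v i)) (A (v j))) := by
  have hn : Ts P ρ (fun v => ρ (v i)) := Ts.var h.num.eqS i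
  have ha : Ts P A (fun v => A (v j)) := Ts.var (eqS_A h hA) j
  have e : ∀ F : ℕ → ℕ, Tk P (fun v => A (v j) (F (ρ (v i)))) := fun F =>
    evalT h hs hA ha (arbF hARB h F hn)
  have t : ∀ c : ℕ, Rc P (fun v => (ρ (v i)).unpair.1 = c) := fun c =>
    arb1 hARB h (fun m => m.unpair.1 = c) hn
  refine ((t 0).and (Rc.eqK (e fun m => m.unpair.2.unpair.1) (e fun m => m.unpair.2.unpair.2))).or
    (((t 1).and (Rc.eqK (e fun m => m.unpair.2) (Tk.const 1))).or
    (((t 2).and (Rc.eqK ((e fun m => m.unpair.2.unpair.1).add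
      (e fun m => m.unpair.2.unpair.2.unpair.1)) (e fun m => m.unpair.2.unpair.2.unpair.2))).or
    (((t 3).and (Rc.eqK ((e fun m => m.unpair.2.unpair.1).mul
      (e fun m => m.unpair.2.unpair.2.unpair.1)) (e fun m => m.unpair.2.unpair.2.unpair.2))).or
    ((t 4).and ?_))))
  exact Rc.app1 surjective_id (R := fun z => z ∈ P) (Rc.memP 0) (e fun m => m.unpair.2)

/-- evaluation of the codes of quantifier-free formulas -/
def Ev (m : ℕ) (T : Set ℕ) : Prop := ∃ φ, QF φ ∧ φ.code = m ∧ ev T φ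

theorem rc_Ev (hARB : S_ARB) (h : Wd P ρ)
    (hA : Rc P (fun v => A (v 0) (ρ (v 1)) = v 2)) (i j : ℕ) :
    Rc P (fun v => Ev (ρ (v i)) (TT A (v j))) := by
  classical
  obtain ⟨g, hg⟩ := exists_surjective_nat (Finset ℕ)
  have hn : ∀ k, Ts P ρ (fun v => ρ (v k)) := fun k => Ts.var h.num.eqS k
  have h1 : Rc P (fun v => ∃ q : ℕ, Ev (ρ (v i)) {l | l ∈ g q} ∧
      ∀ l : ℕ, l ≤ ρ (v i) → (l ∈ TT A (v j) ↔ l ∈ g q)) := by
    obtain ⟨N, hN⟩ : ∃ N, N = i + j + 1 := ⟨_, rfl⟩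
    have hi : i ≠ N := by omega
    have hj : j ≠ N := by omega
    have hi' : i ≠ N + 1 := by omega
    have hj' : j ≠ N + 1 := by omega
    refine Rc.exS N h.num.surj (R := fun v q => Ev (ρ (v i)) {l | l ∈ g q} ∧
      ∀ l : ℕ, l ≤ ρ (v i) → (l ∈ TT A (v j) ↔ l ∈ g q)) ?_ fun v a c => ?_
    · refine (arb2 hARB h (fun m q => Ev m {l | l ∈ g q}) (hn i) (hn N)).and ?_
      refine Rc.allS (N + 1) h.num.surj (R := fun v l => l ≤ ρ (v i) →
        (l ∈ TT A (v j) ↔ l ∈ g (ρ (v N)))) ?_ fun v a c => ?_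
      · exact (arb2 hARB h (fun l m => l ≤ m) (hn (N + 1)) (hn i)).imp
          ((tt_mem h hA (N + 1) j).iff
            (arb2 hARB h (fun l q => l ∈ g q) (hn (N + 1)) (hn N)))
      · rw [update_of_ne hi', update_of_ne hj', update_of_ne (show N ≠ N + 1 by omega)]
    · rw [update_of_ne hi, update_of_ne hj]
  refine h1.congr fun v => ?_
  constructor
  · rintro ⟨q, ⟨φ, h2, h3, h4⟩, h5⟩
    refine ⟨φ, h2, h3, (ev_congr φ fun l hl => ?_).2 h4⟩
    rw [h3] at hl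
    exact h5 l hl
  · rintro ⟨φ, h2, h3, h4⟩
    obtain ⟨q, hq⟩ := hg ((Finset.range (ρ (v i) + 1)).filter fun l => l ∈ TT A (v j))
    have key : ∀ l : ℕ, l ≤ ρ (v i) → (l ∈ TT A (v j) ↔ l ∈ g q) := by
      intro l hl
      rw [hq, Finset.mem_filter, Finset.mem_range]
      exact ⟨fun h6 => ⟨by omega, h6⟩, fun h6 => h6.2⟩
    refine ⟨q, ⟨φ, h2, h3, (ev_congr φ fun l hl => ?_).1 h4⟩, key⟩
    rw [h3] at hl
    exact key l hl

theorem rc_St (hARB : S_ARB) (h : Wd P ρ) (hs : Surjective A)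
    (hA : Rc P (fun v => A (v 0) (ρ (v 1)) = v 2)) : ∀ n : ℕ,
    Rc P (fun v => St P n (ρ (v 0)) (A (v 1))) := by
  intro n
  induction n with
  | zero =>
    have h1 : Rc P (fun v => ∃ x, (∀ j : ℕ, j ∈ TT A x ↔ At P j (A (v 1))) ∧
        Ev (ρ (v 0)) (TT A x)) := by
      refine Rc.ex' 2 (R := fun v x => (∀ j : ℕ, j ∈ TT A x ↔ At P j (A (v 1))) ∧
        Ev (ρ (v 0)) (TT A x)) (Rc.and ?_ (rc_Ev hARB h hA 0 2)) fun v a c => by simp
      refine Rc.allS 3 h.num.surj (R := fun v j => j ∈ TT A (v 2) ↔ At P j (A (v 1)))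
        ((tt_mem h hA 3 2).iff (rc_At hARB h hs hA 3 1)) fun v a c => by simp
    refine h1.congr fun v => ?_
    constructor
    · rintro ⟨x, h2, φ, h3, h4, h5⟩
      exact ⟨φ, Sg.qf φ h3, h4, (ev_qf P _ _ h2 φ h3).1 h5⟩
    · rintro ⟨φ, h3, h4, h5⟩
      have h6 : QF φ := by
        cases h3 with
        | qf _ h => exact h
      obtain ⟨x, hx⟩ := tt_surj hs {j | At P j (A (v 1))}
      have h7 : ∀ j : ℕ, j ∈ TT A x ↔ At P j (A (v 1)) := by
        intro j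
        rw [hx]
        rfl
      exact ⟨x, h7, φ, h6, h4, (ev_qf P _ _ h7 φ h6).2 h5⟩
  | succ n ih =>
    classical
    set G : ℕ → Prop := fun m => ∃ φ, Sg (n + 1) φ ∧ φ.code = m with hG
    set Bl : ℕ → ℕ → Prop := fun m i => ∃ φ : Fm, φ.code = m ∧ i ∈ bvs φ with hBl
    set f : ℕ → ℕ := fun m => if hm : ∃ ψ : Fm, ∃ φ : Fm, φ.code = m ∧ strip φ = .neg ψ then
      hm.choose.code else 0 with hf
    have hcinj := Pool.Agent.Y988.UF.t_CINJ
    have hfc : ∀ (φ ψ : Fm), strip φ = .neg ψ → f φ.code = ψ.code := by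
      intro φ ψ hψ
      have hm : ∃ ψ : Fm, ∃ φ' : Fm, φ'.code = φ.code ∧ strip φ' = .neg ψ := ⟨ψ, φ, rfl, hψ⟩
      rw [hf]
      simp only
      rw [dif_pos hm]
      obtain ⟨φ', h1, h2⟩ := hm.choose_spec
      rw [hcinj _ _ h1, hψ] at h2
      have h3 : ψ = hm.choose := by injection h2
      rw [← h3]
    have hBc : ∀ (φ : Fm) (i : ℕ), Bl φ.code i ↔ i ∈ bvs φ := by
      intro φ i
      constructor
      · rintro ⟨φ', h1, h2⟩
        rwa [hcinj _ _ h1] at h2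
      · intro h1
        exact ⟨φ, rfl, h1⟩
    have hn : ∀ k, Ts P ρ (fun v => ρ (v k)) := fun k => Ts.var h.num.eqS k
    have hat : ∀ k, Ts P A (fun v => A (v k)) := fun k => Ts.var (eqS_A h hA) k
    have h1 : Rc P (fun v => G (ρ (v 0)) ∧ ∃ a' : ℕ → LaurentSeries (ZMod p),
        (∀ i : ℕ, ¬ Bl (ρ (v 0)) i → a' i = A (v 1) i) ∧ ¬ St P n (f (ρ (v 0))) a') := by
      refine (arb1 hARB h G (hn 0)).and ?_
      refine Rc.exS 2 hs (R := fun v a' => (∀ i : ℕ, ¬ Bl (ρ (v 0)) i → a' i = A (v 1) i) ∧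
        ¬ St P n (f (ρ (v 0))) a') (Rc.and ?_ ?_) fun v a c => by simp
      · refine Rc.allS 3 h.num.surj (R := fun v i => ¬ Bl (ρ (v 0)) i →
          A (v 2) i = A (v 1) i) ?_ fun v a c => by simp
        exact (arb2 hARB h Bl (hn 0) (hn 3)).not.imp
          (Rc.eqK (evalT h hs hA (hat 2) (hn 3)) (evalT h hs hA (hat 1) (hn 3)))
      · exact (Rc.app2 h.num.surj hs (R := fun m a => St P n m a) ih
          (arbF hARB h f (hn 0)) (hat 2)).not
    refine h1.congr fun v => ?_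
    constructor
    · rintro ⟨⟨φ, h2, h3⟩, a', h4, h5⟩
      obtain ⟨ψ, h6, h7⟩ := sg_strip (n + 1) φ h2 n rfl
      refine ⟨φ, h2, h3, (sat_strip P φ _).2 ⟨a', fun i hi => h4 i ?_, ?_⟩⟩
      · rw [← h3, hBc]
        exact hi
      · rw [h6]
        intro h8
        refine h5 ⟨ψ, h7, ?_, h8⟩
        rw [← h3, hfc φ ψ h6]
    · rintro ⟨φ, h2, h3, h4⟩
      obtain ⟨ψ, h6, h7⟩ := sg_strip (n + 1) φ h2 n rfl
      obtain ⟨a', h8, h9⟩ := (sat_strip P φ _).1 h4
      refine ⟨⟨φ, h2, h3⟩, a', fun i hi => h8 i ?_, ?_⟩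
      · rw [← h3, hBc] at hi
        exact hi
      · rintro ⟨ψ', h10, h11, h12⟩
        rw [← h3, hfc φ ψ h6] at h11
        rw [hcinj _ _ h11] at h12
        rw [h6] at h9
        exact h9 h12

/-- the diagonal argument -/
theorem diag (hARB : S_ARB) (hASG : S_ASG) (h : Wd P ρ) (n : ℕ) :
    ∃ D : Set (LaurentSeries (ZMod p)), Rc P (fun v => v 0 ∈ D) ∧
      ∀ (ψ : Fm) (w : ℕ → LaurentSeries (ZMod p)), Sg n ψ → DefP P ψ w ≠ D := by
  obtain ⟨A, hs, hA⟩ := hASG p P ρ h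
  have hat : ∀ k, Ts P A (fun v => A (v k)) := fun k => Ts.var (eqS_A h hA) k
  have hn : ∀ k, Ts P ρ (fun v => ρ (v k)) := fun k => Ts.var h.num.eqS k
  have hc : ∀ m : ℕ, Ts P ρ (fun _ => m) := fun m => TpwL.cst h.num m
  refine ⟨{x | ∃ a : ℕ → LaurentSeries (ZMod p), (∀ i : ℕ, i ≠ 0 → a i = A x i) ∧ a 0 = x ∧
    ¬ St P n (ρ (A x 0)) a}, ?_, ?_⟩
  · show Rc P (fun v => ∃ a : ℕ → LaurentSeries (ZMod p), (∀ i : ℕ, i ≠ 0 → a i = A (v 0) i) ∧
      a 0 = v 0 ∧ ¬ St P n (ρ (A (v 0) 0)) a)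
    refine Rc.exS 1 hs (R := fun v a => (∀ i : ℕ, i ≠ 0 → a i = A (v 0) i) ∧
      a 0 = v 0 ∧ ¬ St P n (ρ (A (v 0) 0)) a) (Rc.and ?_ (Rc.and ?_ ?_)) fun v a c => by simp
    · refine Rc.allS 2 h.num.surj (R := fun v i => i ≠ 0 → A (v 1) i = A (v 0) i) ?_
        fun v a c => by simp
      exact (arb1 hARB h (fun m => m ≠ 0) (hn 2)).imp
        (Rc.eqK (evalT h hs hA (hat 1) (hn 2)) (evalT h hs hA (hat 0) (hn 2)))
    · exact Rc.eqK (evalT h hs hA (hat 1) (hc 0)) (Tk.var 0)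
    · have e : Tk P (fun v => A (v 0) 0) := evalT h hs hA (hat 0) (hc 0)
      have e2 : Ts P ρ (fun v => ρ (A (v 0) 0)) :=
        Ts.op1 (ρ := id) (F := ρ) surjective_id h.num.surj (h.num.eqS 0 1) h.num.eqS e
      exact (Rc.app2 h.num.surj hs (R := fun m a => St P n m a) (rc_St hARB h hs hA n)
        e2 (hat 1)).not
  · intro ψ w hψ hD
    obtain ⟨e, he⟩ := h.num.surj ψ.code
    obtain ⟨x, hx⟩ := hs (update w 0 e)
    have h0 : A x 0 = e := by rw [hx, update_self]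
    have hcode : ρ (A x 0) = ψ.code := by rw [h0, he]
    have hu : ∀ a : ℕ → LaurentSeries (ZMod p), (∀ i : ℕ, i ≠ 0 → a i = A x i) → a 0 = x →
        a = update w 0 x := by
      intro a h1 h2
      funext i
      rcases eq_or_ne i 0 with rfl | hi
      · rw [h2, update_self]
      · rw [h1 i hi, hx, update_of_ne hi, update_of_ne hi]
    have hst : St P n (ρ (A x 0)) (update w 0 x) ↔ Sat P ψ (update w 0 x) := by
      rw [hcode]
      constructor
      · rintro ⟨φ, _, h2, h3⟩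
        rwa [Pool.Agent.Y988.UF.t_CINJ _ _ h2] at h3
      · intro h3
        exact ⟨ψ, hψ, rfl, h3⟩
    have key : x ∈ DefP P ψ w ↔ ¬ Sat P ψ (update w 0 x) := by
      rw [hD]
      constructor
      · rintro ⟨a, h1, h2, h3⟩ h4
        rw [hu a h1 h2] at h3
        exact h3 (hst.2 h4)
      · intro h4
        refine ⟨update w 0 x, fun i hi => ?_, update_self _ _ _, fun h5 => h4 (hst.1 h5)⟩
        rw [hx, update_of_ne hi, update_of_ne hi]
    have key2 : x ∈ DefP P ψ w ↔ Sat P ψ (update w 0 x) := Iff.rfl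
    tauto

end

end Pool.Agent.Helper14K9.HC
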