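import Pool.Agent.Helper14K9.PJ.All

/-!
# Project HC (MP_db9079_lc): if the quantifier hierarchy collapses then (K, P) is LFTame

In the wild case (`Unb P`) the satisfaction of all `Σ_n`-formulas is definable, and a diagonal
argument shows that the hierarchy does not collapse.
-/

set_option autoImplicit false

namespace Pool.Agent.Helper14K9.HC

open Function
open Pool.Agent.Y924.EL Pool.Agent.Y924.UF
open Pool.Agent.Helper14K9.SO
open Pool.Agent.Helper14K9.PJ

/-- quantifier-free formulas -/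
inductive QF : Fm → Prop
  | eq (i j : ℕ) : QF (.eq i j)
  | one (i : ℕ) : QF (.one i)
  | add (i j k : ℕ) : QF (.add i j k)
  | mul (i j k : ℕ) : QF (.mul i j k)
  | val (i : ℕ) : QF (.val i)
  | neg (φ : Fm) : QF φ → QF (.neg φ)
  | and (φ ψ : Fm) : QF φ → QF ψ → QF (.and φ ψ)

/-- `Σ_n`-formulas: `Sg 0` are the quantifier-free formulas, `Sg (n + 1)` are the formulas
`∃ x_i ... ∃ x_k ¬ ψ`, `ψ` in `Sg n` -/
inductive Sg : ℕ → Fm → Prop
  | qf (φ : Fm) : QF φ → Sg 0 φ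
  | neg (n : ℕ) (φ : Fm) : Sg n φ → Sg (n + 1) (.neg φ)
  | ex (n i : ℕ) (φ : Fm) : Sg (n + 1) φ → Sg (n + 1) (.ex i φ)

/-- the wild case: numbers, and all sequences are definable -/
structure Wd {p : ℕ} [Fact p.Prime] (P : Set (LaurentSeries (ZMod p)))
    (ρ : LaurentSeries (ZMod p) → ℕ) : Prop where
  num : Num P ρ
  frb : Frb P ρ
  tpw : Rc P (fun v => tq p ^ ρ (v 0) = v 1)
  seq : ∀ x : ℕ → LaurentSeries (ZMod p), Rc P (fun v => x (ρ (v 0)) = v 1)

/-- [ARB] all relations between numbers are definable: `R m i` iff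
`lam (x m * (t ^ i)⁻¹) ≠ 0` for `x m = ∑ t ^ i`, sum over the `i` with `R m i` (an infinite sum). -/
def S_ARB : Prop := ∀ (p : ℕ) [Fact p.Prime] (P : Set (LaurentSeries (ZMod p)))
  (ρ : LaurentSeries (ZMod p) → ℕ), Wd P ρ → ∀ R : ℕ → ℕ → Prop,
    Rc P (fun v => R (ρ (v 0)) (ρ (v 1)))

/-- [ASG] the sort of the assignments `ℕ → K`: `A X i = dec X (2 i) / dec X (2 i + 1)`, where
`dec X n` is the element `y` of `O` with `lam (y * (t ^ i)⁻¹) = lam (X * (((t ^ i) ^ p * t) ^ (p ^ n))⁻¹)`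
for all `i` (see `PJ/Seq.lean`). -/
def S_ASG : Prop := ∀ (p : ℕ) [Fact p.Prime] (P : Set (LaurentSeries (ZMod p)))
  (ρ : LaurentSeries (ZMod p) → ℕ), Wd P ρ →
  ∃ A : LaurentSeries (ZMod p) → (ℕ → LaurentSeries (ZMod p)), Surjective A ∧
    Rc P (fun v => A (v 0) (ρ (v 1)) = v 2)

end Pool.Agent.Helper14K9.HC
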