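import Pool.Agent.Helper14K9.HC.Stm

/-! # Project HC: the wild case (helper14) -/

set_option autoImplicit false

namespace Pool.Agent.Helper14K9.HC

open Function
open Pool.Agent.Y924.EL Pool.Agent.Y924.UF
open Pool.Agent.Helper14K9.SO
open Pool.Agent.Helper14K9.PJ

theorem wd_of_unb (p : ℕ) [Fact p.Prime] (P : Set (LaurentSeries (ZMod p))) (hP : Unb P) :
    ∃ ρ, Wd P ρ := by
  obtain ⟨E, hE1, hE2, hE3⟩ := Pool.Agent.Helper56K9.PJ.dis num_all pow_all p P hP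
  obtain ⟨φ, v, hv⟩ := lfv_of_powers P E hE1 (fun x hx => by
    obtain ⟨n, hn⟩ := hE2 x hx
    exact ⟨_, hn⟩) hE3
  obtain ⟨ψ, w, hw⟩ := lfs_of_lfv P φ 1 1 v hv
  obtain ⟨s, e, hEnv⟩ := env p P ψ w hw
  obtain ⟨ρ, hρ⟩ := num_all p P hP
  have hF := frb_of pow_all Pool.Agent.Helper56K9.PJ.grp p P ρ hρ s e hEnv
  have hT := tpw p P ρ hρ hF
  exact ⟨ρ, hρ, hF, hT, seq p P ρ hρ hF hT⟩

end Pool.Agent.Helper14K9.HC
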